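import Pool.Agent.P.MP_f562c3_an.Fac2

namespace Pool.Agent.Results.MP_f562c3_an.FactorialDecay

open Pool.Agent.P.MP_f562c3_an

/-- If l1(w) embeds into M(0,1) with distortion constants `a` and `b` (isometric case
`a = b = 1`), then in any `r` infinite sets of integers there are elements `n i` such that
`w (n 1 + ... + n r)` is at most about `1 / r!` times the product of the `w (n i)`. -/
theorem result (w : ℕ → ℝ) (hw : IsRadicalWeight w) (a b : ℝ) (ha : 0 < a)
    (hE : EmbedsWith a b w) (r : ℕ) (hr : 1 ≤ r) (A : Fin r → Set ℕ) (hA : ∀ i, (A i).Infinite)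
    (ε : ℝ) (hε : 0 < ε) : ∃ n : Fin r → ℕ, (∀ i, n i ∈ A i) ∧
      a * (r.factorial * w (∑ i, n i)) ≤ (1 + ε) * b ^ r * ∏ i, w (n i) :=
  factorial_decay hw ha hE hr A hA hε

end Pool.Agent.Results.MP_f562c3_an.FactorialDecay
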