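import Pool.Agent.P.MP_f562c3_an.Nec3

namespace Pool.Agent.Results.MP_f562c3_an.FiniteEqualities

open Pool.Agent.P.MP_f562c3_an

/-- If l1(w) embeds isometrically into M(0,1), then `w (m + n) = w m * w n` holds for only
finitely many pairs of positive integers. -/
theorem result (w : ℕ → ℝ) (hw : IsRadicalWeight w) (hE : Embeds w) :
    Set.Finite {p : ℕ × ℕ | 1 ≤ p.1 ∧ 1 ≤ p.2 ∧ w (p.1 + p.2) = w p.1 * w p.2} :=
  finite_eq hw hE

end Pool.Agent.Results.MP_f562c3_an.FiniteEqualities
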