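import Pool.Agent.P.MP_f562c3_an.Nec3
import Pool.Agent.P.MP_f562c3_an.SS.Main

namespace Pool.Agent.Results.MP_f562c3_an.StarIff

open Pool.Agent.P.MP_f562c3_an

/-- A radical weight whose root sequence `w n ^ (1/n)` is non-increasing admits an isometric
algebra homomorphism from l1(w) into M(0,1) if and only if `w (m + n) = w m * w n` holds for only
finitely many pairs of positive integers. -/
theorem result (w : ℕ → ℝ) (hw : IsRadicalWeight w)
    (hanti : ∀ n, 1 ≤ n → root w (n + 1) ≤ root w n) :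
    Embeds w ↔
      Set.Finite {p : ℕ × ℕ | 1 ≤ p.1 ∧ 1 ≤ p.2 ∧ w (p.1 + p.2) = w p.1 * w p.2} :=
  ⟨finite_eq hw, SS.embeds_of_star_finite hw hanti⟩

end Pool.Agent.Results.MP_f562c3_an.StarIff
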